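import Pool.Agent.H81.NCH.Stmts

/-!
# NCH, module TYP (MP_f18ce0_lc): the typed nodes
-/

set_option autoImplicit false

namespace Pool.Agent.H81.NCH

open Pool.Agent.H80

universe u

namespace TYP

variable {K : Type u} [Field K] {n : ℕ}

lemma seg_length (w : ℕ → Fin n) (a k : ℕ) : (seg w a k).length = k := by
  unfold seg
  change (List.map (fun t => w (a + t)) (List.range k)).length = k
  rw [List.length_map, List.length_range]

lemma seg_add (w : ℕ → Fin n) (a k l : ℕ) : seg w a (k + l) = seg w a k * seg w (a + k) l := by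
  unfold seg
  rw [List.range_add, List.map_append, FreeMonoid.ofList_append, List.map_map]
  congr 2
  refine List.map_congr_left fun t _ => ?_
  simp only [Function.comp_apply, Nat.add_assoc]

lemma seg_congr (w w' : ℕ → Fin n) (a k : ℕ) (h : ∀ t ∈ Set.Ico a (a + k), w t = w' t) :
    seg w a k = seg w' a k := by
  unfold seg
  congr 1
  refine List.map_congr_left fun t ht => ?_
  rw [List.mem_range] at ht
  exact h _ ⟨by omega, by omega⟩

/-- words of given lengths can be cut in one way -/
lemma cut_inj (m1 m2 x y : FreeMonoid (Fin n)) (h1 : m1.length = x.length)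
    (h : m1 * m2 = x * y) : m1 = x ∧ m2 = y := by
  have h2 : m1.toList ++ m2.toList = x.toList ++ y.toList := by
    rw [← FreeMonoid.toList_mul, ← FreeMonoid.toList_mul, h]
  have h3 := List.append_inj h2 h1
  exact ⟨FreeMonoid.toList.injective h3.1, FreeMonoid.toList.injective h3.2⟩

lemma exists_ne {p : NCPoly K (Fin n)} (hp : p ≠ 0) : ∃ w : FreeMonoid (Fin n), p.coeff w ≠ 0 := by
  by_contra hcon
  push Not at hcon
  apply hp
  apply MonoidAlgebra.coeff_injective
  ext w
  rw [hcon w]
  rfl

lemma coeff_mul_split {p q : NCPoly K (Fin n)} {k : ℕ} (hp : HomogOf p k)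
    (x y : FreeMonoid (Fin n)) (hx : x.length = k) :
    (p * q).coeff (x * y) = p.coeff x * q.coeff y := by
  classical
  rw [MonoidAlgebra.coeff_mul, Finsupp.sum]
  have h1 : ∀ m1 ∈ p.coeff.support,
      (q.coeff.sum fun m2 r2 => if m1 * m2 = x * y then p.coeff m1 * r2 else 0) =
        if m1 = x then p.coeff x * q.coeff y else 0 := by
    intro m1 hm1
    have h2 : m1.length = x.length := by
      rw [hx]
      exact hp m1 (Finsupp.mem_support_iff.1 hm1)
    by_cases h3 : m1 = x
    · subst h3
      rw [if_pos rfl, Finsupp.sum]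
      have h4 : ∀ m2 ∈ q.coeff.support,
          (if m1 * m2 = m1 * y then p.coeff m1 * q.coeff m2 else 0) =
            if m2 = y then p.coeff m1 * q.coeff y else 0 := by
        intro m2 _
        by_cases h5 : m2 = y
        · subst h5
          rw [if_pos rfl, if_pos rfl]
        · rw [if_neg h5, if_neg]
          intro h6
          exact h5 (cut_inj m1 m2 m1 y rfl h6).2
      rw [Finset.sum_congr rfl h4, Finset.sum_ite_eq']
      split_ifs with h5
      · rfl
      · rw [Finsupp.notMem_support_iff.1 h5, mul_zero]
    · rw [if_neg h3, Finsupp.sum]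
      refine Finset.sum_eq_zero fun m2 _ => ?_
      rw [if_neg]
      intro h6
      exact h3 (cut_inj m1 m2 x y h2 h6).1
  rw [Finset.sum_congr rfl h1, Finset.sum_ite_eq']
  split_ifs with h5
  · rfl
  · rw [Finsupp.notMem_support_iff.1 h5, zero_mul]

lemma mul_word {p q : NCPoly K (Fin n)} {k l : ℕ} (hp : HomogOf p k) (hq : HomogOf q l)
    (w : FreeMonoid (Fin n)) (hw : (p * q).coeff w ≠ 0) : w.length = k + l := by
  classical
  rw [MonoidAlgebra.coeff_mul, Finsupp.sum] at hw
  obtain ⟨m1, hm1, h1⟩ := Finset.exists_ne_zero_of_sum_ne_zero hw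
  rw [Finsupp.sum] at h1
  obtain ⟨m2, hm2, h2⟩ := Finset.exists_ne_zero_of_sum_ne_zero h1
  by_cases h3 : m1 * m2 = w
  · rw [← h3, FreeMonoid.length_mul, hp m1 (Finsupp.mem_support_iff.1 hm1),
      hq m2 (Finsupp.mem_support_iff.1 hm2)]
  · rw [if_neg h3] at h2
    exact absurd rfl h2

lemma add_deg {p q : NCPoly K (Fin n)} {k l d : ℕ} (hp : HomogOf p k) (hq : HomogOf q l)
    (hd : HomogOf (p + q) d) (h0 : p + q ≠ 0) (hp0 : p ≠ 0) : k = d := by
  by_contra hkd
  obtain ⟨w, hw⟩ := exists_ne h0
  obtain ⟨x, hx⟩ := exists_ne hp0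
  have hcf : ∀ z : FreeMonoid (Fin n), (p + q).coeff z = p.coeff z + q.coeff z := fun z => rfl
  have h1 : x.length = k := hp x hx
  have h2 : q.coeff w ≠ 0 := by
    intro h3
    apply hkd
    rw [← hd w hw]
    refine (hp w ?_).symm
    intro h4
    apply hw
    rw [hcf, h3, h4, add_zero]
  have h3 : l = d := by rw [← hd w hw, hq w h2]
  have h4 : q.coeff x = 0 := by
    by_contra h5
    have h6 := hq x h5
    omega
  have h5 : (p + q).coeff x ≠ 0 := by
    rw [hcf, h4, add_zero]
    exact hx
  have h6 := hd x h5
  omega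

end TYP

theorem typ_thm : TYPStmt.{u} := by
  intro K _ n D X v a
  refine ⟨?_, ?_, ?_⟩
  · intro w w' h
    unfold FF
    rw [TYP.seg_congr w w' a (X.deg v) h]
  · intro h w
    unfold FF
    rw [h]
    rfl
  · intro hv
    refine ⟨?_, ?_, ?_, ?_⟩
    · intro i hi
      have h1 := X.compat v
      rw [hi] at h1
      obtain ⟨w, hw⟩ := TYP.exists_ne hv
      have h2 := X.hom v w hw
      rw [h1] at hw
      have h3 : w = FreeMonoid.of i := by
        by_contra h4
        apply hw
        exact Finsupp.single_eq_of_ne h4
      rw [← h2, h3, FreeMonoid.length_of]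
    · intro c hc
      have h1 := X.compat v
      rw [hc] at h1
      obtain ⟨w, hw⟩ := TYP.exists_ne hv
      have h2 := X.hom v w hw
      rw [h1] at hw
      have h3 : w = 1 := by
        by_contra h4
        apply hw
        exact Finsupp.single_eq_of_ne h4
      rw [← h2, h3, FreeMonoid.length_one]
      omega
    · intro x y hxy
      have h1 := X.compat v
      rw [hxy] at h1
      have h1' : X.val v = X.val x + X.val y := h1
      have hd := X.hom v
      have h0 := hv
      rw [h1'] at hd h0
      have hx : X.val x ≠ 0 → X.deg x = X.deg v := fun hx0 =>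
        TYP.add_deg (X.hom x) (X.hom y) hd h0 hx0
      have hy : X.val y ≠ 0 → X.deg y = X.deg v := fun hy0 => by
        rw [add_comm] at hd h0
        exact TYP.add_deg (X.hom y) (X.hom x) hd h0 hy0
      refine ⟨hx, hy, ?_⟩
      intro w
      have e1 : FF X v a w = (X.val x).coeff (seg w a (X.deg v)) +
          (X.val y).coeff (seg w a (X.deg v)) := by
        unfold FF
        rw [h1']
        rfl
      have e2 : FF X x a w = (X.val x).coeff (seg w a (X.deg v)) := by
        by_cases h2 : X.val x = 0
        · unfold FF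
          rw [h2]
          rfl
        · unfold FF
          rw [hx h2]
      have e3 : FF X y a w = (X.val y).coeff (seg w a (X.deg v)) := by
        by_cases h2 : X.val y = 0
        · unfold FF
          rw [h2]
          rfl
        · unfold FF
          rw [hy h2]
      rw [e1, e2, e3]
    · intro x y hxy
      have h1 := X.compat v
      rw [hxy] at h1
      have h1' : X.val v = X.val x * X.val y := h1
      have hx0 : X.val x ≠ 0 := by
        intro h2
        apply hv
        rw [h1', h2, zero_mul]
      have hy0 : X.val y ≠ 0 := by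
        intro h2
        apply hv
        rw [h1', h2, mul_zero]
      have hdeg : X.deg v = X.deg x + X.deg y := by
        obtain ⟨w, hw⟩ := TYP.exists_ne hv
        rw [← X.hom v w hw]
        rw [h1'] at hw
        exact TYP.mul_word (X.hom x) (X.hom y) w hw
      refine ⟨hx0, hy0, hdeg, ?_⟩
      intro w
      unfold FF
      rw [hdeg, h1', TYP.seg_add]
      exact TYP.coeff_mul_split (X.hom x) _ _ (TYP.seg_length _ _ _)

end Pool.Agent.H81.NCH
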