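import Pool.Agent.H81.NCH.Stmts
import Pool.Agent.H81.NCH.Base

/-!
# NCH, module ALV (MP_f18ce0_lc): expected number of living stops
-/

set_option autoImplicit false

namespace Pool.Agent.H81.NCH

open Pool.Agent.H80

universe u

namespace ALV

open Classical in
/-- indicator of a living stop -/
noncomputable def F1 (h m e i k1 k2 : ℕ) (a : ℕ) (r : ℕ → ℕ → ℕ) : ℝ :=
  if a + k1 + k2 ≤ dd h m ∧ Alive h m r a (a + k1) (a + k1 + k2) ∧
    Stop h m e i a (a + k1) (a + k1 + k2) then 1 else 0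

open Classical in
/-- indicator of a living stop with `Post` of `(u, x)` not constant -/
noncomputable def F2 (h m e i k1 k2 : ℕ) (u x : ℕ) (a : ℕ) (r : ℕ → ℕ → ℕ) : ℝ :=
  if a + k1 + k2 ≤ dd h m ∧ Alive h m r a (a + k1) (a + k1 + k2) ∧
    Stop h m e i a (a + k1) (a + k1 + k2) ∧ NonConst h m r u x a (a + k1) (a + k1 + k2)
  then 1 else 0

open Classical in
/-- the same, restricted to nodes inside -/
noncomputable def F3 (h m e i k1 k2 : ℕ) (u x : ℕ) (a : ℕ) (r : ℕ → ℕ → ℕ) : ℝ :=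
  if 1 ≤ u ∧ Inside e i u x then F2 h m e i k1 k2 u x a r else 0

lemma F2_nonneg (h m e i k1 k2 u x a : ℕ) (r : ℕ → ℕ → ℕ) : 0 ≤ F2 h m e i k1 k2 u x a r := by
  unfold F2
  split_ifs
  · exact zero_le_one
  · exact le_rfl

lemma F3_nonneg (h m e i k1 k2 u x a : ℕ) (r : ℕ → ℕ → ℕ) : 0 ≤ F3 h m e i k1 k2 u x a r := by
  unfold F3
  split_ifs
  · exact F2_nonneg _ _ _ _ _ _ _ _ _ _
  · exact le_rfl

lemma gfac_le (hCLS : CLSStmt) (h m : ℕ) (r : ℕ → ℕ → ℕ) (e i k1 k2 a : ℕ) (hm : 1 ≤ m)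
    (hr : RB m r) (he : e + 10 ≤ h) (hi : i < 2 ^ e) :
    gfac h m r e i a (a + k1) (a + k1 + k2) ≤
      1 / (m : ℝ) * F1 h m e i k1 k2 a r +
        ∑ u ∈ Finset.range (h + 1), ∑ x ∈ Finset.range (2 ^ u), F3 h m e i k1 k2 u x a r := by
  classical
  have hm0 : (0 : ℝ) < m := by exact_mod_cast hm
  have hs0 : 0 ≤ ∑ u ∈ Finset.range (h + 1), ∑ x ∈ Finset.range (2 ^ u),
      F3 h m e i k1 k2 u x a r :=
    Finset.sum_nonneg fun u _ => Finset.sum_nonneg fun x _ => F3_nonneg _ _ _ _ _ _ _ _ _ _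
  by_cases hA : a + k1 + k2 ≤ dd h m ∧ Alive h m r a (a + k1) (a + k1 + k2) ∧
    Stop h m e i a (a + k1) (a + k1 + k2)
  · have h1 : F1 h m e i k1 k2 a r = 1 := by
      unfold F1
      rw [if_pos hA]
    have h2 : gfac h m r e i a (a + k1) (a + k1 + k2) =
        if Gain h m a (a + k1) (a + k1 + k2) then 1 / (m : ℝ) else 1 := by
      unfold gfac
      rw [if_pos hA]
    rw [h1, h2, mul_one]
    by_cases hG : Gain h m a (a + k1) (a + k1 + k2)
    · rw [if_pos hG]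
      linarith
    · rw [if_neg hG]
      rcases hCLS h m r e i a (a + k1) (a + k1 + k2) hm hr he hi hA.1 hA.2.1 hA.2.2 with h3 | h3
      · exact absurd h3 hG
      · obtain ⟨u, x, hin, hu1, huh, hx, hN⟩ := h3
        have h4 : F3 h m e i k1 k2 u x a r = 1 := by
          unfold F3
          rw [if_pos ⟨hu1, hin⟩]
          unfold F2
          rw [if_pos ⟨hA.1, hA.2.1, hA.2.2, hN⟩]
        have h5 : F3 h m e i k1 k2 u x a r ≤
            ∑ x ∈ Finset.range (2 ^ u), F3 h m e i k1 k2 u x a r :=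
          Finset.single_le_sum (f := fun x => F3 h m e i k1 k2 u x a r)
            (fun y _ => F3_nonneg _ _ _ _ _ _ _ _ _ _) (Finset.mem_range.2 hx)
        have h6 : ∑ x ∈ Finset.range (2 ^ u), F3 h m e i k1 k2 u x a r ≤
            ∑ u ∈ Finset.range (h + 1), ∑ x ∈ Finset.range (2 ^ u),
              F3 h m e i k1 k2 u x a r :=
          Finset.single_le_sum (f := fun u => ∑ x ∈ Finset.range (2 ^ u),
              F3 h m e i k1 k2 u x a r)
            (fun y _ => Finset.sum_nonneg fun x _ => F3_nonneg _ _ _ _ _ _ _ _ _ _)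
            (Finset.mem_range.2 (by omega))
        have h7 : 0 ≤ 1 / (m : ℝ) := by positivity
        linarith
  · have h1 : F1 h m e i k1 k2 a r = 0 := by
      unfold F1
      rw [if_neg hA]
    have h2 : gfac h m r e i a (a + k1) (a + k1 + k2) = 0 := by
      unfold gfac
      rw [if_neg hA]
    rw [h1, h2, mul_zero, zero_add]
    exact hs0

lemma F1_sum (hRA1 : RA1Stmt) (h m : ℕ) (r : ℕ → ℕ → ℕ) (e i k1 k2 : ℕ) (hm : 1 ≤ m)
    (hr : RB m r) (he : e + 10 ≤ h) (hi : i < 2 ^ e) :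
    ∑ a ∈ Finset.range (dd h m + 1), F1 h m e i k1 k2 a r ≤ 2 ^ (2 * h + 6) * 2 ^ (2 * h + 12) := by
  classical
  have h1 := hRA1 h m r k1 k2 e i hm hr he hi
  unfold F1
  rw [Finset.sum_boole]
  exact_mod_cast h1

lemma F2_sum (hRA2 : RA2Stmt) (h m : ℕ) (r : ℕ → ℕ → ℕ) (e i k1 k2 u x : ℕ) (hm : 1 ≤ m)
    (hr : RB m r) (he : e + 10 ≤ h) (hi : i < 2 ^ e) (hu1 : 1 ≤ u) (huh : u ≤ h)
    (hx : x < 2 ^ u) :
    ∑ ρ ∈ Finset.range m, ∑ a ∈ Finset.range (dd h m + 1),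
      F2 h m e i k1 k2 u x a (upd r u x (ρ + 1)) ≤ 2 ^ (3 * h + 9) * (2 ^ (2 * h + 12)) ^ 2 := by
  classical
  have h1 := hRA2 h m r u x k1 k2 e i hm hr he hi hu1 huh hx
  rw [Finset.sum_comm, ← Finset.sum_product']
  unfold F2
  rw [Finset.sum_boole]
  exact_mod_cast h1

lemma geo (h : ℕ) : ∑ u ∈ Finset.range (h + 1), (2 : ℝ) ^ u ≤ 2 ^ (h + 1) := by
  have h1 : ∀ k : ℕ, ∑ u ∈ Finset.range k, (2 : ℝ) ^ u = 2 ^ k - 1 := by
    intro k
    induction k with
    | zero => simp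
    | succ k ih =>
      rw [Finset.sum_range_succ, ih, pow_succ]
      ring
  rw [h1]
  linarith

end ALV

theorem alv_thm (hCLS : CLSStmt) (hRA1 : RA1Stmt) (hRA2 : RA2Stmt) (hAVA : AVAStmt)
    (hAVC : AVCStmt) (hRRF : RRFStmt) : ALVStmt := by
  classical
  intro h m e i e' i' k1 k2 ω hm hi hin he
  have hm0 : (0 : ℝ) < m := by exact_mod_cast hm
  have hi' : i' < 2 ^ e' := hin.lt_pow hi
  obtain ⟨mono, cst, smul, lsum, ladd, nonneg⟩ := hAVA h m (Inside e i) hm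
  have hRB : ∀ ω' : Om h m, RB m (rr ω') := fun ω' => (hRRF h m ω' hm).1
  -- pointwise bound, averaged
  have h1 : ∀ a : ℕ, avg (Inside e i)
      (fun ω' => gfac h m (rr ω') e' i' a (a + k1) (a + k1 + k2)) ω ≤
      1 / (m : ℝ) * avg (Inside e i) (fun ω' => ALV.F1 h m e' i' k1 k2 a (rr ω')) ω +
        ∑ u ∈ Finset.range (h + 1), ∑ x ∈ Finset.range (2 ^ u),
          avg (Inside e i) (fun ω' => ALV.F3 h m e' i' k1 k2 u x a (rr ω')) ω := by
    intro a
    have h2 := mono _ (fun ω' => 1 / (m : ℝ) * ALV.F1 h m e' i' k1 k2 a (rr ω') +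
        ∑ u ∈ Finset.range (h + 1), ∑ x ∈ Finset.range (2 ^ u),
          ALV.F3 h m e' i' k1 k2 u x a (rr ω')) ω
      (fun ω' => ALV.gfac_le hCLS h m (rr ω') e' i' k1 k2 a hm (hRB ω') he hi')
    rw [ladd, smul, lsum] at h2
    refine h2.trans (le_of_eq ?_)
    congr 1
    refine Finset.sum_congr rfl fun u _ => ?_
    rw [lsum]
  -- the first part
  have hP1 : ∑ a ∈ Finset.range (dd h m + 1),
      avg (Inside e i) (fun ω' => ALV.F1 h m e' i' k1 k2 a (rr ω')) ω ≤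
      2 ^ (2 * h + 6) * 2 ^ (2 * h + 12) := by
    rw [← lsum]
    refine (mono _ (fun _ => 2 ^ (2 * h + 6) * 2 ^ (2 * h + 12)) ω ?_).trans (le_of_eq (cst _ ω))
    intro ω'
    exact ALV.F1_sum hRA1 h m (rr ω') e' i' k1 k2 hm (hRB ω') he hi'
  -- the second part
  have hP2 : ∀ u ∈ Finset.range (h + 1), ∀ x ∈ Finset.range (2 ^ u),
      ∑ a ∈ Finset.range (dd h m + 1),
        avg (Inside e i) (fun ω' => ALV.F3 h m e' i' k1 k2 u x a (rr ω')) ω ≤
      2 ^ (3 * h + 9) * (2 ^ (2 * h + 12)) ^ 2 / (m : ℝ) := by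
    intro u hu x hx
    rw [Finset.mem_range] at hu hx
    rw [← lsum]
    by_cases hc : 1 ≤ u ∧ Inside e' i' u x
    · have h3 : (fun ω' : Om h m => ∑ a ∈ Finset.range (dd h m + 1),
          ALV.F3 h m e' i' k1 k2 u x a (rr ω')) =
          fun ω' : Om h m => (fun r : ℕ → ℕ → ℕ => ∑ a ∈ Finset.range (dd h m + 1),
            ALV.F2 h m e' i' k1 k2 u x a r) (rr ω') := by
        funext ω'
        refine Finset.sum_congr rfl fun a _ => ?_
        unfold ALV.F3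
        rw [if_pos hc]
      have hx' : x < 2 ^ h := lt_of_lt_of_le hx (Nat.pow_le_pow_right (by norm_num) (by omega))
      have h4 := hAVC h m (Inside e i) (fun r : ℕ → ℕ → ℕ => ∑ a ∈ Finset.range (dd h m + 1),
            ALV.F2 h m e' i' k1 k2 u x a r) u x ω hm (by omega) hx' (hin.trans hc.2)
      rw [h3]
      refine (le_of_eq h4).trans ?_
      refine (mono _ (fun _ => 2 ^ (3 * h + 9) * (2 ^ (2 * h + 12)) ^ 2 / (m : ℝ)) ω ?_).trans
        (le_of_eq (cst _ ω))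
      intro ω'
      apply div_le_div_of_nonneg_right _ hm0.le
      exact ALV.F2_sum hRA2 h m (rr ω') e' i' k1 k2 u x hm (hRB ω') he hi' hc.1 (by omega) hx
    · have h3 : (fun ω' : Om h m => ∑ a ∈ Finset.range (dd h m + 1),
          ALV.F3 h m e' i' k1 k2 u x a (rr ω')) = fun _ => 0 := by
        funext ω'
        refine Finset.sum_eq_zero fun a _ => ?_
        unfold ALV.F3
        rw [if_neg hc]
      rw [h3, cst]
      positivity
  -- sum over the shifts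
  have hS : ∑ a ∈ Finset.range (dd h m + 1), avg (Inside e i)
      (fun ω' => gfac h m (rr ω') e' i' a (a + k1) (a + k1 + k2)) ω ≤
      1 / (m : ℝ) * (2 ^ (2 * h + 6) * 2 ^ (2 * h + 12)) +
        ∑ u ∈ Finset.range (h + 1), ∑ x ∈ Finset.range (2 ^ u),
          2 ^ (3 * h + 9) * (2 ^ (2 * h + 12)) ^ 2 / (m : ℝ) := by
    refine (Finset.sum_le_sum fun a _ => h1 a).trans ?_
    rw [Finset.sum_add_distrib, ← Finset.mul_sum]
    refine add_le_add (mul_le_mul_of_nonneg_left hP1 (by positivity)) ?_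
    rw [Finset.sum_comm]
    refine Finset.sum_le_sum fun u hu => ?_
    rw [Finset.sum_comm]
    exact Finset.sum_le_sum fun x hx => hP2 u hu x hx
  refine hS.trans ?_
  have h4 : ∑ u ∈ Finset.range (h + 1), ∑ x ∈ Finset.range (2 ^ u),
      (2 : ℝ) ^ (3 * h + 9) * (2 ^ (2 * h + 12)) ^ 2 / (m : ℝ) =
      (∑ u ∈ Finset.range (h + 1), (2 : ℝ) ^ u) *
        (2 ^ (3 * h + 9) * (2 ^ (2 * h + 12)) ^ 2 / (m : ℝ)) := by
    rw [Finset.sum_mul]
    refine Finset.sum_congr rfl fun u _ => ?_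
    rw [Finset.sum_const, Finset.card_range, nsmul_eq_mul]
    push_cast
    ring
  rw [h4]
  have h5 := ALV.geo h
  have h6 : (0 : ℝ) ≤ 2 ^ (3 * h + 9) * (2 ^ (2 * h + 12)) ^ 2 / (m : ℝ) := by positivity
  have h7 := mul_le_mul_of_nonneg_right h5 h6
  have h8 : (2 : ℝ) ^ (2 * h + 6) * 2 ^ (2 * h + 12) ≤ 2 ^ (8 * h + 34) := by
    rw [← pow_add]
    exact pow_le_pow_right₀ (by norm_num) (by omega)
  have h9 : (2 : ℝ) ^ (h + 1) * (2 ^ (3 * h + 9) * (2 ^ (2 * h + 12)) ^ 2 / (m : ℝ)) =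
      2 ^ (8 * h + 34) / (m : ℝ) := by
    rw [← mul_div_assoc, ← pow_mul, ← pow_add, ← pow_add]
    congr 2
    ring
  have h10 : 1 / (m : ℝ) * (2 ^ (2 * h + 6) * 2 ^ (2 * h + 12)) ≤ 2 ^ (8 * h + 34) / (m : ℝ) := by
    rw [one_div, inv_mul_eq_div]
    exact div_le_div_of_nonneg_right h8 hm0.le
  have h11 : (2 : ℝ) ^ (8 * h + 35) / (m : ℝ) =
      2 ^ (8 * h + 34) / (m : ℝ) + 2 ^ (8 * h + 34) / (m : ℝ) := by
    rw [← add_div]
    congr 1
    rw [show 8 * h + 35 = (8 * h + 34) + 1 from rfl, pow_succ]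
    ring
  rw [h11]
  rw [h9] at h7
  exact add_le_add h10 h7

end Pool.Agent.H81.NCH
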